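import Pool.Agent.helper67CG.Main

/-!
# Word-defined operations on one group: infinitely many incomparable varieties

`Law G w`: the word `w` is a law of the group `G`. `InVar G H`: the group `H` satisfies all laws of
`G`, that is `H` lies in the variety generated by `G`. An equivalence `e : H ≃ G` with
`e (a * b) = v (e a, e b)` says that the word `v` defines on the set `G` a group operation and that
`H` is the resulting group `G_v`.
-/

set_option autoImplicit false

namespace Pool.Agent.Results.MP_394f71_al.InfinitelyManyVarieties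

/-- the word `w` is a law of `G` -/
def Law (G : Type) [Group G] (w : FreeGroup ℕ) : Prop :=
  ∀ f : ℕ → G, FreeGroup.lift f w = 1

/-- `H` satisfies every law of `G`: it lies in the variety generated by `G` -/
def InVar (G H : Type) [Group G] [Group H] : Prop :=
  ∀ w : FreeGroup ℕ, Law G w → Law H w

theorem law_congr {G H : Type} [Group G] [Group H] (e : H ≃* G) (w : FreeGroup ℕ) :
    Law G w ↔ Law H w := by
  have aux : ∀ (A B : Type) [Group A] [Group B] (g : A ≃* B), Law A w → Law B w := by
    intro A B _ _ g h f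
    have h1 := h (fun n => g.symm (f n))
    have h2 : FreeGroup.lift f w = g (FreeGroup.lift (fun n => g.symm (f n)) w) := by
      have h3 : (g.toMonoidHom.comp (FreeGroup.lift (fun n => g.symm (f n)))) =
          FreeGroup.lift f := by
        apply FreeGroup.ext_hom
        intro n
        simp
      rw [← h3]
      rfl
    rw [h2, h1, map_one]
  exact ⟨aux G H e.symm, aux H G e⟩

theorem parallel {r : ℕ} {m m' : Fin r → ℤ}
    (h : ∀ c : Fin r → ℤ, ∑ j, c j * m' j = 0 → ∑ j, c j * m j = 0) :
    (∀ i j, m i * m' j = m j * m' i) ∧ (m' = 0 → m = 0) := by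
  constructor
  · intro i j
    by_cases hij : i = j
    · rw [hij]
    have h1 : ∀ a : Fin r → ℤ,
        ∑ k, ((if k = i then m' j else 0) - (if k = j then m' i else 0)) * a k =
          m' j * a i - m' i * a j := by
      intro a
      simp [sub_mul, Finset.sum_sub_distrib]
    have h2 := h (fun k => (if k = i then m' j else 0) - (if k = j then m' i else 0))
      (by rw [h1]; ring)
    rw [h1] at h2
    linarith
  · intro h0
    funext i
    have h2 := h (fun k => if k = i then 1 else 0) (by simp [h0])
    simpa using h2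

/-- **One group, many word-defined operations.**
(1) For every `r` and all large primes `p` there are a group `G` in which all `p`-th powers are
central, two-variable words `v_m` and words `u_c` (`m`, `c` in `ℤ^r`), such that every `v_m` makes
the set `G` into a group `G_m`, every `u_c` is a law of `G`, and `u_c` is a law of `G_m` if and only
if `∑ c_j m_j = 0`. So no `G_m` with `m ≠ 0` lies in the variety generated by `G`, and if `G_m` lies
in the variety generated by `G_{m'}` then `m` is a rational multiple of `m'`.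
(2) In particular, for all large primes `p` there are such a group `G` and infinitely many
two-variable words for which the groups obtained on the set `G` generate varieties none of which
contains another one of these groups, and none of these groups lies in the variety generated by
`G`. -/
theorem result :
    (∀ r : ℕ, ∃ n0 : ℕ, ∀ p : ℕ, p.Prime → n0 ≤ p →
      ∃ (G : Type) (_ : Group G) (H : (Fin r → ℤ) → Type) (_ : ∀ m, Group (H m))
        (e : ∀ m, H m ≃ G) (v : (Fin r → ℤ) → FreeGroup (Fin 2))
        (u : (Fin r → ℤ) → FreeGroup ℕ),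
        (∀ x y : G, x ^ p * y = y * x ^ p) ∧
        (∀ (m : Fin r → ℤ) (a b : H m),
          e m (a * b) = FreeGroup.lift (![e m a, e m b] : Fin 2 → G) (v m)) ∧
        (∀ c, Law G (u c)) ∧
        (∀ m c : Fin r → ℤ, Law (H m) (u c) ↔ ∑ j, c j * m j = 0) ∧
        (∀ m, m ≠ 0 → ¬ InVar G (H m)) ∧
        ∀ m m' : Fin r → ℤ, InVar (H m') (H m) →
          (∀ i j, m i * m' j = m j * m' i) ∧ (m' = 0 → m = 0)) ∧
    ∃ n0 : ℕ, ∀ p : ℕ, p.Prime → n0 ≤ p →
      ∃ (G : Type) (_ : Group G) (H : ℕ → Type) (_ : ∀ k, Group (H k)) (e : ∀ k, H k ≃ G)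
        (v : ℕ → FreeGroup (Fin 2)),
        (∀ x y : G, x ^ p * y = y * x ^ p) ∧
        (∀ (k : ℕ) (a b : H k),
          e k (a * b) = FreeGroup.lift (![e k a, e k b] : Fin 2 → G) (v k)) ∧
        (∀ k, ¬ InVar G (H k)) ∧
        ∀ k l, k ≠ l → ¬ InVar (H k) (H l) := by
  have part1 : ∀ r : ℕ, ∃ n0 : ℕ, ∀ p : ℕ, p.Prime → n0 ≤ p →
      ∃ (G : Type) (_ : Group G) (H : (Fin r → ℤ) → Type) (_ : ∀ m, Group (H m))
        (e : ∀ m, H m ≃ G) (v : (Fin r → ℤ) → FreeGroup (Fin 2))
        (u : (Fin r → ℤ) → FreeGroup ℕ),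
        (∀ x y : G, x ^ p * y = y * x ^ p) ∧
        (∀ (m : Fin r → ℤ) (a b : H m),
          e m (a * b) = FreeGroup.lift (![e m a, e m b] : Fin 2 → G) (v m)) ∧
        (∀ c, Law G (u c)) ∧
        (∀ m c : Fin r → ℤ, Law (H m) (u c) ↔ ∑ j, c j * m j = 0) ∧
        (∀ m, m ≠ 0 → ¬ InVar G (H m)) ∧
        ∀ m m' : Fin r → ℤ, InVar (H m') (H m) →
          (∀ i j, m i * m' j = m j * m' i) ∧ (m' = 0 → m = 0) := by
    intro r
    obtain ⟨n0, hn⟩ := Pool.Agent.helper67CG.many r
    refine ⟨n0, fun p hp hpn => ?_⟩
    obtain ⟨G, iG, H, iH, e, v, u, h1, h2, h3, h4⟩ := hn p hp hpn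
    have hG : ∀ c, Law G (u c) := by
      intro c
      let e0 : H 0 ≃* G := { e 0 with map_mul' := h3 }
      rw [law_congr e0]
      exact (h4 0 c).2 (by simp)
    have hpar : ∀ m m' : Fin r → ℤ, InVar (H m') (H m) →
        (∀ i j, m i * m' j = m j * m' i) ∧ (m' = 0 → m = 0) := by
      intro m m' h
      exact parallel fun c hc => (h4 m c).1 (h _ ((h4 m' c).2 hc))
    refine ⟨G, iG, H, iH, e, v, u, h1, h2, hG, h4, ?_, hpar⟩
    intro m hm h
    apply hm
    funext i
    have h5 := (h4 m (fun k => if k = i then 1 else 0)).1 (h _ (hG _))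
    simpa using h5
  refine ⟨part1, ?_⟩
  obtain ⟨n0, hn⟩ := part1 2
  refine ⟨n0, fun p hp hpn => ?_⟩
  obtain ⟨G, iG, H, iH, e, v, u, h1, h2, -, -, h5, h6⟩ := hn p hp hpn
  refine ⟨G, iG, fun k => H ![1, (k : ℤ)], fun k => iH _, fun k => e _, fun k => v _, h1,
    fun k a b => h2 _ a b, ?_, ?_⟩
  · intro k
    apply h5
    intro h
    have := congrFun h 0
    simp at this
  · intro k l hkl h
    have h7 := (h6 _ _ h).1 0 1
    simp at h7
    exact hkl h7

end Pool.Agent.Results.MP_394f71_al.InfinitelyManyVarieties
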